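import Mathlib

set_option autoImplicit false

open Complex MeasureTheory Set Filter Topology

namespace Pool.Agent.TH480.TX

theorem t_prim {c c1 V : ℝ} (hc : c < c1) (hc1 : c1 < 2) (hV : 0 < V) :
    ∃ H : ℝ, V ≤ H ∧ ∀ h g : ℂ → ℂ, (∀ s ∈ Icc c 2 ×ℂ Icc (-H) H, DifferentiableAt ℂ h s) →
      (∀ s : ℂ, 1 < s.re → DifferentiableAt ℂ g s) →
      (∀ s : ℂ, 1 < s.re → s.re ≤ 2 → |s.im| ≤ H → deriv g s = h s) →
      ∃ k : ℂ → ℂ, (∀ s ∈ Icc c1 2 ×ℂ Icc (-V) V, DifferentiableAt ℂ k s) ∧
        ∀ s : ℂ, 1 < s.re → s.re ≤ 2 → |s.im| ≤ V → k s = g s := by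
  classical
  have hδ : 0 < c1 - c := by linarith
  obtain ⟨R, hR⟩ : ∃ R : ℝ, R = ((2 - c) + (V ^ 2 + 1) / (c1 - c)) / 2 := ⟨_, rfl⟩
  have hq : 0 < (V ^ 2 + 1) / (c1 - c) := by positivity
  have hRpos : 0 < R := by rw [hR]; linarith
  refine ⟨max R V, le_max_right _ _, ?_⟩
  intro h g hh hg hgh
  obtain ⟨O, hO⟩ : ∃ O : ℂ, O = ((c + R : ℝ) : ℂ) := ⟨_, rfl⟩
  have hOre : O.re = c + R := by rw [hO, ofReal_re]
  have hOim : O.im = 0 := by rw [hO, ofReal_im]
  have hball : ∀ s ∈ Metric.ball O R, c < s.re ∧ |s.im| < R := by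
    intro s hs
    rw [Metric.mem_ball, dist_eq_norm] at hs
    have h1 := (abs_re_le_norm (s - O)).trans_lt hs
    have h2 := (abs_im_le_norm (s - O)).trans_lt hs
    rw [sub_re, hOre, abs_lt] at h1
    rw [sub_im, hOim, sub_zero] at h2
    exact ⟨by linarith [h1.1], h2⟩
  have hrect : ∀ s ∈ Icc c1 2 ×ℂ Icc (-V) V, s ∈ Metric.ball O R := by
    intro s hs
    rw [mem_reProdIm] at hs
    obtain ⟨⟨h1, h2⟩, h3, h4⟩ := hs
    rw [Metric.mem_ball, dist_eq_norm]
    have h5 : ‖s - O‖ ^ 2 < R ^ 2 := by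
      rw [← normSq_eq_norm_sq, normSq_apply, sub_re, sub_im, hOre, hOim]
      have h6 : (V ^ 2 + 1) / (c1 - c) ≤ 2 * R - (s.re - c) := by rw [hR]; linarith
      have h7 : V ^ 2 + 1 ≤ (s.re - c) * (2 * R - (s.re - c)) := by
        calc V ^ 2 + 1 = (c1 - c) * ((V ^ 2 + 1) / (c1 - c)) := by field_simp
          _ ≤ (s.re - c) * (2 * R - (s.re - c)) :=
              mul_le_mul (by linarith) h6 hq.le (by linarith)
      have h8 : s.im ^ 2 ≤ V ^ 2 := by
        apply sq_le_sq'
        · exact h3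
        · exact h4
      nlinarith
    exact lt_of_pow_lt_pow_left₀ 2 hRpos.le h5
  obtain ⟨f, hf⟩ : ∃ f : ℂ → ℂ, f = fun s => if s.re ≤ 3 / 2 then h s else deriv g s := ⟨_, rfl⟩
  have him : ∀ s ∈ Metric.ball O R, |s.im| ≤ max R V := fun s hs =>
    (hball s hs).2.le.trans (le_max_left _ _)
  have hgd : DifferentiableOn ℂ (deriv g) {s : ℂ | 1 < s.re} := by
    have ho : IsOpen {s : ℂ | 1 < s.re} := isOpen_lt continuous_const continuous_re
    have : DifferentiableOn ℂ g {s : ℂ | 1 < s.re} := fun s hs =>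
      (hg s hs).differentiableWithinAt
    exact this.deriv ho
  have hfd : DifferentiableOn ℂ f (Metric.ball O R) := by
    intro s hs
    apply DifferentiableAt.differentiableWithinAt
    obtain ⟨hs1, hs2⟩ := hball s hs
    rcases lt_or_ge s.re 2 with h2 | h2
    · have hfe : f =ᶠ[𝓝 s] h := by
        have e1 : ∀ᶠ z in 𝓝 s, z.re < 2 := (isOpen_lt continuous_re continuous_const).mem_nhds h2
        have e2 : ∀ᶠ z in 𝓝 s, z ∈ Metric.ball O R := Metric.isOpen_ball.mem_nhds hs
        filter_upwards [e1, e2] with z hz1 hz2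
        rw [hf]
        show (if z.re ≤ 3 / 2 then h z else deriv g z) = h z
        split_ifs with h3
        · rfl
        · push Not at h3
          exact hgh z (by linarith) hz1.le (him z hz2)
      refine DifferentiableAt.congr_of_eventuallyEq ?_ hfe
      refine hh s ?_
      rw [mem_reProdIm]
      exact ⟨⟨hs1.le, h2.le⟩, abs_le.1 (him s hs)⟩
    · have hfe : f =ᶠ[𝓝 s] deriv g := by
        have e1 : ∀ᶠ z in 𝓝 s, 3 / 2 < z.re :=
          (isOpen_lt continuous_const continuous_re).mem_nhds (by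
            show (3 / 2 : ℝ) < s.re
            linarith)
        filter_upwards [e1] with z hz1
        rw [hf]
        show (if z.re ≤ 3 / 2 then h z else deriv g z) = deriv g z
        rw [if_neg (not_le.mpr hz1)]
      refine DifferentiableAt.congr_of_eventuallyEq ?_ hfe
      have h3 : s ∈ {s : ℂ | 1 < s.re} := by
        show 1 < s.re
        linarith
      exact (hgd s h3).differentiableAt ((isOpen_lt continuous_const continuous_re).mem_nhds h3)
  obtain ⟨k0, hk0⟩ := hfd.isExactOn_ball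
  have hU : IsOpen (Metric.ball O R ∩ {s : ℂ | 1 < s.re}) :=
    Metric.isOpen_ball.inter (isOpen_lt continuous_const continuous_re)
  have hconv : Convex ℝ (Metric.ball O R ∩ {s : ℂ | 1 < s.re}) :=
    (convex_ball O R).inter (convex_halfSpace_re_gt 1)
  have hder : ∀ s ∈ Metric.ball O R ∩ {s : ℂ | 1 < s.re},
      HasDerivAt (fun z => k0 z - g z) 0 s := by
    rintro s ⟨hs, hs1⟩
    have hs1' : 1 < s.re := hs1
    have h1 := (hk0 s hs).sub (hg s hs1').hasDerivAt
    have h2 : f s - deriv g s = 0 := by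
      rw [hf]
      show (if s.re ≤ 3 / 2 then h s else deriv g s) - deriv g s = 0
      split_ifs with h3
      · rw [hgh s hs1' (by linarith) (him s hs), sub_self]
      · rw [sub_self]
    rw [h2] at h1
    exact h1
  obtain ⟨C, hC⟩ := hU.exists_is_const_of_deriv_eq_zero hconv.isPreconnected
    (f := fun z => k0 z - g z)
    (fun s hs => (hder s hs).differentiableAt.differentiableWithinAt)
    (fun s hs => (hder s hs).deriv)
  refine ⟨fun s => if s ∈ Metric.ball O R then k0 s - C else g s, ?_, ?_⟩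
  · intro s hs
    have hsb := hrect s hs
    have hfe : (fun s => if s ∈ Metric.ball O R then k0 s - C else g s) =ᶠ[𝓝 s]
        fun s => k0 s - C := by
      have e2 : ∀ᶠ z in 𝓝 s, z ∈ Metric.ball O R := Metric.isOpen_ball.mem_nhds hsb
      filter_upwards [e2] with z hz
      rw [if_pos hz]
    refine DifferentiableAt.congr_of_eventuallyEq ?_ hfe
    exact (hk0 s hsb).differentiableAt.sub_const C
  · intro s hs1 hs2 hs3
    show (if s ∈ Metric.ball O R then k0 s - C else g s) = g s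
    split_ifs with h1
    · have h2 : k0 s - g s = C := hC s ⟨h1, hs1⟩
      rw [← h2]
      ring
    · rfl

end Pool.Agent.TH480.TX
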